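import Pool.Agent.Helper22.SU.TRL

set_option autoImplicit false

/-! Module EVI: integrals and sums of envelopes. -/

namespace Pool.Agent.Helper37.SU

open MeasureTheory Finset
open scoped ENNReal Classical

theorem EVI_haar1 : (volume : Measure UnitAddCircle) = haar1 := by
  have h := AddCircle.volume_eq_smul_haarAddCircle (T := (1 : ℝ))
  unfold haar1
  have h3 : (volume : Measure UnitAddCircle) = ENNReal.ofReal 1 • AddCircle.haarAddCircle := h
  rw [h3]
  simp

theorem EVI_cont (b j : ℕ) : Continuous (ev b j) := by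
  unfold ev
  refine Continuous.inv₀ (by fun_prop) fun t => ?_
  have : 0 ≤ (b : ℝ) ^ j * ‖t‖ := by positivity
  positivity

theorem EVI_nonneg (b j : ℕ) (t : UnitAddCircle) : 0 ≤ ev b j t := by
  unfold ev
  positivity

theorem EVI_le_one (b j : ℕ) (t : UnitAddCircle) : ev b j t ≤ 1 := by
  unfold ev
  apply inv_le_one_of_one_le₀
  have : 0 ≤ (b : ℝ) ^ j * ‖t‖ := by positivity
  nlinarith

theorem EVI_int1 (b j : ℕ) (c : UnitAddCircle) :
    Integrable (fun t : UnitAddCircle => ev b j (t - c)) haar1 := by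
  have hfin : IsFiniteMeasure haar1 := by unfold haar1; infer_instance
  refine Integrable.of_bound
    ((EVI_cont b j).comp (continuous_id.sub continuous_const)).aestronglyMeasurable 1 ?_
  refine Filter.Eventually.of_forall fun t => ?_
  rw [Real.norm_eq_abs, abs_of_nonneg (EVI_nonneg b j _)]
  exact EVI_le_one b j _

theorem EVI_half {M : ℝ} (hM : 0 < M) :
    ∫ u in (0 : ℝ)..(1 / 2), ((1 + M * u) ^ 2)⁻¹ ≤ M⁻¹ := by
  have hd : ∀ x ∈ Set.uIcc (0 : ℝ) (1 / 2),
      HasDerivAt (fun u : ℝ => -(M * (1 + M * u))⁻¹) (((1 + M * x) ^ 2)⁻¹) x := by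
    intro x hx
    rw [Set.uIcc_of_le (by norm_num)] at hx
    have hx0 : 0 < 1 + M * x := by nlinarith [hx.1]
    have h1 : HasDerivAt (fun u : ℝ => M * (1 + M * u)) (M * (M * 1)) x :=
      (((hasDerivAt_id x).const_mul M).const_add 1).const_mul M
    have h2 := (h1.inv (by positivity)).neg
    have h3 : -(-(M * (M * 1)) / (M * (1 + M * x)) ^ 2) = ((1 + M * x) ^ 2)⁻¹ := by
      field_simp
    rw [h3] at h2
    exact h2
  have hc : ContinuousOn (fun u : ℝ => ((1 + M * u) ^ 2)⁻¹) (Set.uIcc (0 : ℝ) (1 / 2)) := by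
    refine ContinuousOn.inv₀ (by fun_prop) fun x hx => ?_
    rw [Set.uIcc_of_le (by norm_num)] at hx
    have hx0 : 0 < 1 + M * x := by nlinarith [hx.1]
    positivity
  rw [intervalIntegral.integral_eq_sub_of_hasDerivAt hd hc.intervalIntegrable]
  have h4 : 0 < (M * (1 + M * (1 / 2)))⁻¹ := by positivity
  have h5 : (M * (1 + M * 0))⁻¹ = M⁻¹ := by rw [mul_zero, add_zero, mul_one]
  linarith

theorem EVI_one {b : ℕ} (hb : 2 ≤ b) (j : ℕ) (c : UnitAddCircle) :
    ∫ t, ev b j (t - c) ∂haar1 ≤ 2 * ((b : ℝ) ^ j)⁻¹ := by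
  set M : ℝ := (b : ℝ) ^ j with hM
  have hM0 : 0 < M := by positivity
  rw [← EVI_haar1]
  have h0 : ∫ t : UnitAddCircle, ev b j (t - c) = ∫ t : UnitAddCircle, ev b j t :=
    integral_sub_right_eq_self (fun t => ev b j t) c
  rw [h0]
  have h1 := UnitAddCircle.intervalIntegral_preimage (-(1 / 2)) (fun t : UnitAddCircle => ev b j t)
  rw [← h1]
  have e1 : (-(1 / 2) : ℝ) + 1 = 1 / 2 := by norm_num
  rw [e1]
  have h2 : ∫ a in (-(1 / 2) : ℝ)..(1 / 2), ev b j ((a : ℝ) : UnitAddCircle)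
      = ∫ a in (-(1 / 2) : ℝ)..(1 / 2), ((1 + M * |a|) ^ 2)⁻¹ := by
    apply intervalIntegral.integral_congr
    intro a ha
    rw [Set.uIcc_of_le (by norm_num)] at ha
    have h3 : ‖((a : ℝ) : UnitAddCircle)‖ = |a| := by
      rw [AddCircle.norm_coe_eq_abs_iff (1 : ℝ) one_ne_zero, abs_one, abs_le]
      exact ⟨ha.1, ha.2⟩
    simp only [ev, h3, ← hM]
  rw [h2]
  have hcont : Continuous fun a : ℝ => ((1 + M * |a|) ^ 2)⁻¹ := by
    refine Continuous.inv₀ (by fun_prop) fun x => ?_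
    have : 0 ≤ M * |x| := by positivity
    positivity
  rw [← intervalIntegral.integral_add_adjacent_intervals (b := (0 : ℝ))
    (hcont.intervalIntegrable _ _) (hcont.intervalIntegrable _ _)]
  have h4 : ∫ a in (0 : ℝ)..(1 / 2), ((1 + M * |a|) ^ 2)⁻¹ ≤ M⁻¹ := by
    refine le_trans (le_of_eq ?_) (EVI_half hM0)
    apply intervalIntegral.integral_congr
    intro a ha
    rw [Set.uIcc_of_le (by norm_num)] at ha
    simp only [abs_of_nonneg ha.1]
  have h5 : ∫ a in (-(1 / 2) : ℝ)..0, ((1 + M * |a|) ^ 2)⁻¹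
      = ∫ a in (0 : ℝ)..(1 / 2), ((1 + M * |a|) ^ 2)⁻¹ := by
    have h6 := intervalIntegral.integral_comp_neg (a := (0 : ℝ)) (b := 1 / 2)
      (fun a : ℝ => ((1 + M * |a|) ^ 2)⁻¹)
    simp only [abs_neg, neg_zero] at h6
    exact h6.symm
  rw [h5]
  linarith

theorem EVI_sum1 {b : ℕ} (hb : 2 ≤ b) (s : ℕ) (t : UnitAddCircle) :
    ∑ a ∈ range (b ^ s), ev b s (t - pt b s a) ≤ 16 := by
  have hkey := fun a : ℕ => fun ha : a < b ^ s => TRL_key hb s a ha t
  choose! k hk1 hk2 hk3 using hkey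
  have hinj : Set.InjOn k (range (b ^ s) : Set ℕ) := by
    intro a ha a' ha' hkk
    have ha1 := Finset.mem_range.1 (Finset.mem_coe.1 ha)
    have ha2 := Finset.mem_range.1 (Finset.mem_coe.1 ha')
    have h1 := hk2 a ha1
    have h2 := hk2 a' ha2
    rw [← hkk] at h2
    have hpos : (0 : ℤ) < ((b ^ s : ℕ) : ℤ) := by
      have : 0 < b ^ s := Nat.pos_of_ne_zero (pow_ne_zero _ (by omega))
      exact_mod_cast this
    have e1 := Int.emod_nonneg ((a : ℤ) + k a) hpos.ne'
    have e2 := Int.emod_nonneg ((a' : ℤ) + k a) hpos.ne'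
    have h4 : ((a : ℤ) + k a) % ((b ^ s : ℕ) : ℤ) = ((a' : ℤ) + k a) % ((b ^ s : ℕ) : ℤ) := by
      omega
    have h5 : (a : ℤ) % ((b ^ s : ℕ) : ℤ) = (a' : ℤ) % ((b ^ s : ℕ) : ℤ) :=
      Int.ModEq.add_right_cancel' (k a) h4
    rw [Int.emod_eq_of_lt (by positivity) (by exact_mod_cast ha1),
      Int.emod_eq_of_lt (by positivity) (by exact_mod_cast ha2)] at h5
    exact_mod_cast h5
  calc ∑ a ∈ range (b ^ s), ev b s (t - pt b s a)
      ≤ ∑ a ∈ range (b ^ s), 4 * ((1 + |(k a : ℝ)|) ^ 2)⁻¹ :=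
        Finset.sum_le_sum fun a ha => hk3 a (Finset.mem_range.1 ha)
    _ = ∑ x ∈ (range (b ^ s)).image k, 4 * ((1 + |(x : ℝ)|) ^ 2)⁻¹ := by
        rw [Finset.sum_image hinj]
    _ ≤ ∑ x ∈ Icc (-((b ^ s : ℕ) : ℤ)) ((b ^ s : ℕ) : ℤ), 4 * ((1 + |(x : ℝ)|) ^ 2)⁻¹ := by
        refine Finset.sum_le_sum_of_subset_of_nonneg ?_ fun x _ _ => by positivity
        intro x hx
        obtain ⟨a, ha, rfl⟩ := Finset.mem_image.1 hx
        rw [mem_Icc]
        exact abs_le.1 (hk1 a (Finset.mem_range.1 ha))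
    _ ≤ 16 := by
        have h2 := TRL_sum1 (b ^ s)
        have h3 : 0 ≤ 8 * (((b ^ s : ℕ) : ℝ) + 1)⁻¹ := by positivity
        linarith

theorem st_EVI : ST_EVI := by
  intro b d hb
  have hσ : SigmaFinite haar1 := by unfold haar1; infer_instance
  refine ⟨16 ^ d, by positivity, ?_, ?_⟩
  · intro σ c
    constructor
    · unfold haar
      exact Integrable.fintype_prod (f := fun i t => ev b (σ i) (t - c i))
        fun i => EVI_int1 b (σ i) (c i)
    · unfold haar
      rw [integral_fintype_prod_eq_prod (fun i t => ev b (σ i) (t - c i))]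
      calc ∏ i, ∫ t, ev b (σ i) (t - c i) ∂haar1
          ≤ ∏ i, (2 * ((b : ℝ) ^ (σ i))⁻¹) :=
            Finset.prod_le_prod (fun i _ => integral_nonneg fun t => EVI_nonneg _ _ _)
              fun i _ => EVI_one hb (σ i) (c i)
        _ = 2 ^ d * ((b : ℝ) ^ (∑ i, σ i))⁻¹ := by
            rw [Finset.prod_mul_distrib, Finset.prod_inv_distrib, Finset.prod_pow_eq_pow_sum]
            simp
        _ ≤ 16 ^ d * ((b : ℝ) ^ (∑ i, σ i))⁻¹ := by
            have h1 : (2 : ℝ) ^ d ≤ 16 ^ d := pow_le_pow_left₀ (by norm_num) (by norm_num) d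
            exact mul_le_mul_of_nonneg_right h1 (by positivity)
  · intro s t
    unfold EV gr
    simp only
    rw [← Finset.prod_univ_sum (fun i => range (b ^ s i))
      (fun i a => ev b (s i) (t i - pt b (s i) a))]
    calc ∏ i, ∑ a ∈ range (b ^ s i), ev b (s i) (t i - pt b (s i) a)
        ≤ ∏ _i : Fin d, (16 : ℝ) :=
          Finset.prod_le_prod (fun i _ => Finset.sum_nonneg fun a _ => EVI_nonneg _ _ _)
            fun i _ => EVI_sum1 hb (s i) (t i)
      _ = 16 ^ d := by simp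

end Pool.Agent.Helper37.SU
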