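import Pool.Agent.Helper37.SU.Stmts

set_option autoImplicit false

/-! Module IXB: `b`-adic boxes. -/

namespace Pool.Agent.Helper37.SU

open MeasureTheory Finset
open scoped ENNReal Classical

theorem IXB_mem (t : UnitAddCircle) : 0 ≤ fr t ∧ fr t < 1 := by
  have h := (AddCircle.equivIco (1 : ℝ) 0 t).2
  unfold fr
  exact ⟨h.1, by simpa using h.2⟩

theorem IXB_coe (t : UnitAddCircle) : ((fr t : ℝ) : UnitAddCircle) = t := by
  unfold fr
  exact AddCircle.coe_equivIco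

theorem IXB_fr {x : ℝ} (h0 : 0 ≤ x) (h1 : x < 1) : fr ((x : ℝ) : UnitAddCircle) = x := by
  unfold fr
  exact AddCircle.equivIco_coe_of_mem (p := (1 : ℝ)) (a := 0) ⟨h0, by simpa using h1⟩

theorem IXB_meas_fr : Measurable fr := by
  have h := measurable_subtype_coe.comp (AddCircle.measurableEquivIco (1 : ℝ) 0).measurable
  exact h

theorem IXB_meas (b j : ℕ) : Measurable (ix b j) := by
  unfold ix
  exact Nat.measurable_floor.comp (IXB_meas_fr.const_mul _)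

theorem IXB_lt {b : ℕ} (hb : 2 ≤ b) (j : ℕ) (t : UnitAddCircle) : ix b j t < b ^ j := by
  have hb0 : (0 : ℝ) < (b : ℝ) ^ j := by positivity
  unfold ix
  rw [Nat.floor_lt (mul_nonneg hb0.le (IXB_mem t).1)]
  push_cast
  calc (b : ℝ) ^ j * fr t < (b : ℝ) ^ j * 1 := mul_lt_mul_of_pos_left (IXB_mem t).2 hb0
    _ = (b : ℝ) ^ j := mul_one _

theorem IXB_div {b : ℕ} (hb : 2 ≤ b) (i j : ℕ) (t : UnitAddCircle) :
    ix b i t = ix b (i + j) t / b ^ j := by
  have hb0 : (0 : ℝ) < (b : ℝ) ^ j := by positivity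
  unfold ix
  rw [← Nat.floor_div_natCast]
  congr 1
  push_cast
  rw [pow_add]
  field_simp

theorem IXB_bd {b : ℕ} (hb : 2 ≤ b) (j : ℕ) (t : UnitAddCircle) :
    (ix b j t : ℝ) / (b : ℝ) ^ j ≤ fr t ∧ fr t < ((ix b j t : ℝ) + 1) / (b : ℝ) ^ j := by
  have hb0 : (0 : ℝ) < (b : ℝ) ^ j := by positivity
  constructor
  · rw [div_le_iff₀ hb0, mul_comm]
    exact Nat.floor_le (mul_nonneg hb0.le (IXB_mem t).1)
  · rw [lt_div_iff₀ hb0, mul_comm]
    exact Nat.lt_floor_add_one _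

theorem IXB_norm_le (x : ℝ) : ‖((x : ℝ) : UnitAddCircle)‖ ≤ |x| := by
  have h := AddCircle.norm_eq (1 : ℝ) (x := x)
  rw [h]
  have h1 := round_le x 0
  simp only [inv_one, one_mul, mul_one]
  simpa using h1

theorem IXB_norm {b : ℕ} (hb : 2 ≤ b) (j : ℕ) (t : UnitAddCircle) :
    ‖t - pt b j (ix b j t)‖ ≤ ((b : ℝ) ^ j)⁻¹ := by
  have hb0 : (0 : ℝ) < (b : ℝ) ^ j := by positivity
  have h1 : t - pt b j (ix b j t)
      = (((fr t - (ix b j t : ℝ) / (b : ℝ) ^ j : ℝ)) : UnitAddCircle) := by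
    unfold pt
    rw [AddCircle.coe_sub, IXB_coe]
  rw [h1]
  refine (IXB_norm_le _).trans ?_
  have h2 := IXB_bd hb j t
  rw [abs_of_nonneg (by linarith [h2.1])]
  have h3 : ((ix b j t : ℝ) + 1) / (b : ℝ) ^ j = (ix b j t : ℝ) / (b : ℝ) ^ j + ((b : ℝ) ^ j)⁻¹ := by
    field_simp
  linarith [h2.2]

theorem IXB_floor {b : ℕ} (hb : 2 ≤ b) {j a : ℕ} {x : ℝ} (h0 : 0 ≤ x) :
    ⌊(b : ℝ) ^ j * x⌋₊ = a ↔ (a : ℝ) / (b : ℝ) ^ j ≤ x ∧ x < ((a : ℝ) + 1) / (b : ℝ) ^ j := by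
  have hb0 : (0 : ℝ) < (b : ℝ) ^ j := by positivity
  rw [Nat.floor_eq_iff (mul_nonneg hb0.le h0), div_le_iff₀ hb0, lt_div_iff₀ hb0, mul_comm x]

theorem IXB_pt {b : ℕ} (hb : 2 ≤ b) (j a : ℕ) (ha : a < b ^ j) : ix b j (pt b j a) = a := by
  have hb0 : (0 : ℝ) < (b : ℝ) ^ j := by positivity
  have ha' : (a : ℝ) < (b : ℝ) ^ j := by exact_mod_cast ha
  have h1 : fr (pt b j a) = (a : ℝ) / (b : ℝ) ^ j := by
    unfold pt
    exact IXB_fr (by positivity) ((div_lt_one hb0).2 ha')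
  unfold ix
  rw [h1, mul_div_cancel₀ _ hb0.ne']
  exact Nat.floor_natCast a

theorem IXB_haar (S : Set UnitAddCircle) : haar1 S = (volume : Measure UnitAddCircle) S := by
  have h := AddCircle.volume_eq_smul_haarAddCircle (T := (1 : ℝ))
  have h2 : (volume : Measure UnitAddCircle) = haar1 := by
    unfold haar1
    have h3 : (volume : Measure UnitAddCircle) = ENNReal.ofReal 1 • AddCircle.haarAddCircle := h
    rw [h3]
    simp
  rw [h2]

theorem IXB_vol {b : ℕ} (hb : 2 ≤ b) (j a : ℕ) (ha : a < b ^ j) :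
    haar1 {t | ix b j t = a} = ENNReal.ofReal ((b : ℝ) ^ j)⁻¹ := by
  have hb0 : (0 : ℝ) < (b : ℝ) ^ j := by positivity
  have hmeas : MeasurableSet {t | ix b j t = a} :=
    (IXB_meas b j) (measurableSet_singleton a)
  rw [IXB_haar]
  have h1 := AddCircle.add_projection_respects_measure (1 : ℝ) 0 hmeas
  have h2 : (volume : Measure UnitAddCircle) {t | ix b j t = a}
      = volume ((QuotientAddGroup.mk : ℝ → UnitAddCircle) ⁻¹' {t | ix b j t = a}
        ∩ Set.Ioc (0 : ℝ) (0 + 1)) := h1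
  rw [h2]
  have h3 : (((QuotientAddGroup.mk : ℝ → UnitAddCircle) ⁻¹' {t | ix b j t = a}
        ∩ Set.Ioc (0 : ℝ) (0 + 1) : Set ℝ)) =ᵐ[volume]
      (Set.Ico ((a : ℝ) / (b : ℝ) ^ j) (((a : ℝ) + 1) / (b : ℝ) ^ j) : Set ℝ) := by
    have e0 : ∀ᵐ x : ℝ, x ≠ 0 := by simp [ae_iff]
    have e1 : ∀ᵐ x : ℝ, x ≠ 1 := by simp [ae_iff]
    filter_upwards [e0, e1] with x hx0 hx1
    apply propext
    change (x ∈ (QuotientAddGroup.mk : ℝ → UnitAddCircle) ⁻¹' {t | ix b j t = a}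
        ∩ Set.Ioc (0 : ℝ) (0 + 1)) ↔
      (x ∈ Set.Ico ((a : ℝ) / (b : ℝ) ^ j) (((a : ℝ) + 1) / (b : ℝ) ^ j))
    have ha' : (a : ℝ) + 1 ≤ (b : ℝ) ^ j := by exact_mod_cast ha
    have ha2 : ((a : ℝ) + 1) / (b : ℝ) ^ j ≤ 1 := (div_le_one hb0).2 ha'
    have ha3 : 0 ≤ (a : ℝ) / (b : ℝ) ^ j := by positivity
    constructor
    · rintro ⟨hx, hxI⟩
      have hxx : x < 1 := lt_of_le_of_ne (by simpa using hxI.2) hx1
      have hx' : ix b j ((x : ℝ) : UnitAddCircle) = a := hx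
      unfold ix at hx'
      rw [IXB_fr hxI.1.le hxx] at hx'
      exact (IXB_floor hb hxI.1.le).1 hx'
    · intro hx
      have hx00 : 0 ≤ x := ha3.trans hx.1
      have hxx : x < 1 := hx.2.trans_le ha2
      refine ⟨?_, lt_of_le_of_ne hx00 (Ne.symm hx0), by simpa using hxx.le⟩
      change ix b j ((x : ℝ) : UnitAddCircle) = a
      unfold ix
      rw [IXB_fr hx00 hxx]
      exact (IXB_floor hb hx00).2 hx
  rw [measure_congr h3, Real.volume_Ico]
  congr 1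
  field_simp
  ring

theorem IXB_box {d : ℕ} (b : ℕ) (B : Bo d) : {t : TT d | inB b B t}
    = Set.pi Set.univ fun i => {t : UnitAddCircle | ix b (B.1 i) t = B.2 i} := by
  ext t
  simp [inB, Set.mem_pi]

theorem st_IXB : ST_IXB := by
  intro b hb
  refine ⟨IXB_lt hb, IXB_div hb, IXB_norm hb, IXB_pt hb, IXB_meas b, IXB_vol hb, ?_, ?_⟩
  · intro d B
    rw [IXB_box]
    exact MeasurableSet.univ_pi fun i => (IXB_meas b (B.1 i)) (measurableSet_singleton _)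
  · intro d B hB
    rw [IXB_box]
    have : SigmaFinite haar1 := by unfold haar1; infer_instance
    unfold haar
    rw [Measure.pi_pi]
    have h1 : ∀ i, haar1 {t : UnitAddCircle | ix b (B.1 i) t = B.2 i}
        = ENNReal.ofReal ((b : ℝ) ^ (B.1 i))⁻¹ := fun i => IXB_vol hb _ _ (hB i)
    simp only [h1]
    rw [← ENNReal.ofReal_prod_of_nonneg fun i _ => by positivity]
    rw [Finset.prod_inv_distrib, Finset.prod_pow_eq_pow_sum]

end Pool.Agent.Helper37.SU
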