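import Pool.Agent.Helper37.SU.Stmts

set_option autoImplicit false

/-! Module TRL: envelopes are averages of translated indicators. -/

namespace Pool.Agent.Helper37.SU

open MeasureTheory Finset
open scoped ENNReal Classical

theorem TRL_fr_mem (t : UnitAddCircle) : 0 ≤ fr t ∧ fr t < 1 := by
  have h := (AddCircle.equivIco (1 : ℝ) 0 t).2
  unfold fr
  exact ⟨h.1, by simpa using h.2⟩

theorem TRL_coe (t : UnitAddCircle) : ((fr t : ℝ) : UnitAddCircle) = t := by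
  unfold fr
  exact AddCircle.coe_equivIco

theorem TRL_sum1 (N : ℕ) :
    ∑ x ∈ Icc (-(N : ℤ)) (N : ℤ), 4 * ((1 + |(x : ℝ)|) ^ 2)⁻¹ ≤ 16 - 8 * ((N : ℝ) + 1)⁻¹ := by
  induction N with
  | zero => norm_num
  | succ N ih =>
    have h1 : Icc (-((N + 1 : ℕ) : ℤ)) ((N + 1 : ℕ) : ℤ)
        = insert ((N + 1 : ℕ) : ℤ) (insert (-((N + 1 : ℕ) : ℤ)) (Icc (-(N : ℤ)) (N : ℤ))) := by
      ext x
      simp only [mem_Icc, mem_insert]
      omega
    rw [h1, sum_insert, sum_insert]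
    · have e1 : |(((-((N + 1 : ℕ) : ℤ)) : ℤ) : ℝ)| = (N : ℝ) + 1 := by
        push_cast
        rw [abs_of_nonpos (by linarith [Nat.cast_nonneg (α := ℝ) N])]
        ring
      have e2 : |((((N + 1 : ℕ) : ℤ) : ℤ) : ℝ)| = (N : ℝ) + 1 := by
        push_cast
        rw [abs_of_nonneg (by positivity)]
      rw [e1, e2]
      have h3 : 4 * ((1 + ((N : ℝ) + 1)) ^ 2)⁻¹ + 4 * ((1 + ((N : ℝ) + 1)) ^ 2)⁻¹
          ≤ 8 * ((N : ℝ) + 1)⁻¹ - 8 * (((N : ℝ) + 1) + 1)⁻¹ := by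
        have hN : (0 : ℝ) ≤ N := Nat.cast_nonneg N
        have h4 : 8 * ((N : ℝ) + 1)⁻¹ - 8 * (((N : ℝ) + 1) + 1)⁻¹
            = 8 / (((N : ℝ) + 1) * ((N : ℝ) + 1 + 1)) := by
          field_simp
          ring
        have h5 : 4 * ((1 + ((N : ℝ) + 1)) ^ 2)⁻¹ + 4 * ((1 + ((N : ℝ) + 1)) ^ 2)⁻¹
            = 8 / ((N : ℝ) + 1 + 1) ^ 2 := by
          field_simp
          ring
        rw [h4, h5]
        apply div_le_div_of_nonneg_left (by norm_num) (by positivity)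
        nlinarith
      push_cast
      linarith
    · simp only [mem_Icc]; omega
    · simp only [mem_insert, mem_Icc]; omega

/-- representatives -/
theorem TRL_rep (y : UnitAddCircle) : ∃ u : ℝ, ((u : ℝ) : UnitAddCircle) = y ∧ |u| = ‖y‖ ∧
    |u| ≤ 1 / 2 := by
  refine ⟨fr y - round (fr y), ?_, ?_, abs_sub_round _⟩
  · rw [AddCircle.coe_sub, TRL_coe]
    have h : (((round (fr y) : ℤ) : ℝ) : UnitAddCircle) = 0 := by
      have := AddCircle.coe_period (1 : ℝ)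
      have h2 : (((round (fr y) : ℤ) : ℝ) : UnitAddCircle)
          = (round (fr y)) • ((1 : ℝ) : UnitAddCircle) := by
        rw [← AddCircle.coe_zsmul]
        simp
      rw [h2, this, smul_zero]
    rw [h, sub_zero]
  · have h := AddCircle.norm_eq (1 : ℝ) (x := fr y)
    simp only [inv_one, one_mul, mul_one] at h
    rw [← h]
    exact congrArg norm (TRL_coe y)

theorem TRL_key {b : ℕ} (hb : 2 ≤ b) (s a : ℕ) (ha : a < b ^ s) (t : UnitAddCircle) :
    ∃ k : ℤ, |k| ≤ ((b ^ s : ℕ) : ℤ) ∧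
      ix b s t = (((a : ℤ) + k) % ((b ^ s : ℕ) : ℤ)).toNat ∧
      ev b s (t - pt b s a) ≤ 4 * ((1 + |(k : ℝ)|) ^ 2)⁻¹ := by
  obtain ⟨u, hu1, hu2, hu3⟩ := TRL_rep (t - pt b s a)
  set M : ℕ := b ^ s with hM
  have hM1 : 1 ≤ M := Nat.one_le_pow _ _ (by omega)
  have hM0 : (0 : ℝ) < (M : ℝ) := by exact_mod_cast hM1
  have hbM : (b : ℝ) ^ s = (M : ℝ) := by rw [hM]; push_cast; ring
  set k : ℤ := ⌊(M : ℝ) * u⌋ with hk
  have hk1 : (k : ℝ) ≤ M * u := Int.floor_le _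
  have hk2 : (M : ℝ) * u < k + 1 := Int.lt_floor_add_one _
  have habs : |(k : ℝ)| ≤ M * |u| + 1 := by
    rw [abs_le]
    have h1 : -(M * |u|) ≤ M * u := by
      have := neg_abs_le u
      nlinarith
    have h2 : M * u ≤ M * |u| := mul_le_mul_of_nonneg_left (le_abs_self u) hM0.le
    constructor <;> linarith
  refine ⟨k, ?_, ?_, ?_⟩
  · have h1 : -(1 / 2 : ℝ) ≤ u := by linarith [neg_abs_le u]
    have h2 : u ≤ 1 / 2 := by linarith [le_abs_self u]
    have h3 : (2 : ℝ) * k ≤ M := by nlinarith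
    have h4 : (-2 : ℝ) * k < M + 2 := by nlinarith
    have h3' : 2 * k ≤ (M : ℤ) := by exact_mod_cast h3
    have h4' : -2 * k < (M : ℤ) + 2 := by exact_mod_cast h4
    rw [abs_le]
    have : (1 : ℤ) ≤ M := by exact_mod_cast hM1
    constructor <;> omega
  · have h5 : ((fr t - (a : ℝ) / M - u : ℝ) : UnitAddCircle) = 0 := by
      rw [AddCircle.coe_sub, AddCircle.coe_sub, TRL_coe, hu1]
      unfold pt
      rw [hbM, sub_self]
    obtain ⟨z, hz⟩ := (AddCircle.coe_eq_zero_iff (1 : ℝ)).1 h5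
    have hz' : (z : ℝ) = fr t - (a : ℝ) / M - u := by
      rw [← hz]; simp
    have h6 : (M : ℝ) * fr t = (M : ℝ) * u + (((a : ℤ) + (M : ℤ) * z : ℤ) : ℝ) := by
      have : fr t = (z : ℝ) + (a : ℝ) / M + u := by rw [hz']; ring
      rw [this]
      push_cast
      field_simp
      ring
    have h7 : ⌊(M : ℝ) * fr t⌋ = k + ((a : ℤ) + (M : ℤ) * z) := by
      rw [h6, Int.floor_add_intCast]
    have h8 : ((ix b s t : ℕ) : ℤ) = k + ((a : ℤ) + (M : ℤ) * z) := by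
      unfold ix
      rw [hbM, ← h7]
      exact Int.natCast_floor_eq_floor (mul_nonneg hM0.le (TRL_fr_mem t).1)
    have h9 : ix b s t < M := by
      unfold ix
      rw [hbM, Nat.floor_lt (mul_nonneg hM0.le (TRL_fr_mem t).1)]
      calc (M : ℝ) * fr t < M * 1 := mul_lt_mul_of_pos_left (TRL_fr_mem t).2 hM0
        _ = M := mul_one _
    have h10 : ((a : ℤ) + k) % (M : ℤ) = ((ix b s t : ℕ) : ℤ) := by
      have : (a : ℤ) + k = ((ix b s t : ℕ) : ℤ) + (M : ℤ) * (-z) := by rw [h8]; ring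
      rw [this, Int.add_mul_emod_self_left]
      exact Int.emod_eq_of_lt (by positivity) (by exact_mod_cast h9)
    rw [h10]
    simp
  · unfold ev
    rw [hbM, ← hu2]
    have h11 : (1 + |(k : ℝ)|) ^ 2 ≤ 4 * (1 + M * |u|) ^ 2 := by
      have h12 : 1 + |(k : ℝ)| ≤ 2 * (1 + M * |u|) := by
        have : 0 ≤ (M : ℝ) * |u| := by positivity
        linarith
      have h13 : 0 ≤ 1 + |(k : ℝ)| := by positivity
      calc (1 + |(k : ℝ)|) ^ 2 ≤ (2 * (1 + M * |u|)) ^ 2 := pow_le_pow_left₀ h13 h12 2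
        _ = 4 * (1 + M * |u|) ^ 2 := by ring
    have h14 : (0 : ℝ) < (1 + M * |u|) ^ 2 := by positivity
    have h15 : (0 : ℝ) < (1 + |(k : ℝ)|) ^ 2 := by positivity
    rw [← div_eq_mul_inv, inv_eq_one_div, div_le_div_iff₀ h14 h15]
    linarith

theorem st_TRL : ST_TRL := by
  intro b d hb
  refine ⟨16 ^ d, by positivity, fun l => ?_⟩
  set K : Finset (Fin d → ℤ) :=
    Fintype.piFinset fun _ => Icc (-((b ^ l : ℕ) : ℤ)) ((b ^ l : ℕ) : ℤ) with hK
  set w : (Fin d → ℤ) → ℝ := fun k => ∏ i, 4 * ((1 + |(k i : ℝ)|) ^ 2)⁻¹ with hw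
  set π : (Fin d → ℤ) → Bo d → Bo d := fun k B =>
    (B.1, fun i => (((B.2 i : ℤ) + k i) % ((b ^ B.1 i : ℕ) : ℤ)).toNat) with hπ
  have hw0 : ∀ k, 0 ≤ w k := fun k => Finset.prod_nonneg fun i _ => by positivity
  have hpos : ∀ s : ℕ, (0 : ℤ) < ((b ^ s : ℕ) : ℤ) := by
    intro s
    have : 0 < b ^ s := Nat.pos_of_ne_zero (pow_ne_zero _ (by omega))
    exact_mod_cast this
  refine ⟨K, w, π, fun k _ => hw0 k, ?_, ?_, ?_, ?_⟩
  · have h1 : ∑ k ∈ K, w k
        = ∏ _i : Fin d, ∑ x ∈ Icc (-((b ^ l : ℕ) : ℤ)) ((b ^ l : ℕ) : ℤ),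
          4 * ((1 + |(x : ℝ)|) ^ 2)⁻¹ := by
      rw [Finset.prod_univ_sum]
    rw [h1]
    calc ∏ _i : Fin d, ∑ x ∈ Icc (-((b ^ l : ℕ) : ℤ)) ((b ^ l : ℕ) : ℤ),
          4 * ((1 + |(x : ℝ)|) ^ 2)⁻¹ ≤ ∏ _i : Fin d, (16 : ℝ) := by
          refine Finset.prod_le_prod (fun i _ => Finset.sum_nonneg fun x _ => by positivity)
            fun i _ => ?_
          have h2 := TRL_sum1 (b ^ l)
          have h3 : 0 ≤ 8 * (((b ^ l : ℕ) : ℝ) + 1)⁻¹ := by positivity
          linarith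
      _ = 16 ^ d := by simp
  · intro k _ B hB
    rw [mem_lev] at hB ⊢
    refine ⟨hB.1, fun i => ?_⟩
    have h1 := Int.emod_nonneg ((B.2 i : ℤ) + k i) (hpos (B.1 i)).ne'
    have h2 := Int.emod_lt_of_pos ((B.2 i : ℤ) + k i) (hpos (B.1 i))
    simp only [hπ]
    omega
  · intro k _ B hB B' hB' h
    have hB1 := mem_lev.1 (Finset.mem_coe.1 hB)
    have hB2 := mem_lev.1 (Finset.mem_coe.1 hB')
    simp only [hπ, Prod.mk.injEq] at h
    obtain ⟨h1, h2⟩ := h
    refine Prod.ext h1 ?_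
    funext i
    have h3 := congrFun h2 i
    simp only [← h1] at h3
    have e1 := Int.emod_nonneg ((B.2 i : ℤ) + k i) (hpos (B.1 i)).ne'
    have e2 := Int.emod_nonneg ((B'.2 i : ℤ) + k i) (hpos (B.1 i)).ne'
    have h4 : ((B.2 i : ℤ) + k i) % ((b ^ B.1 i : ℕ) : ℤ)
        = ((B'.2 i : ℤ) + k i) % ((b ^ B.1 i : ℕ) : ℤ) := by omega
    have h5 : (B.2 i : ℤ) % ((b ^ B.1 i : ℕ) : ℤ) = (B'.2 i : ℤ) % ((b ^ B.1 i : ℕ) : ℤ) :=
      Int.ModEq.add_right_cancel' (k i) h4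
    have l1 := hB1.2 i
    have l2 := hB2.2 i
    rw [← h1] at l2
    rw [Int.emod_eq_of_lt (by positivity) (by exact_mod_cast l1),
      Int.emod_eq_of_lt (by positivity) (by exact_mod_cast l2)] at h5
    exact_mod_cast h5
  · intro B hB t
    have hB1 := mem_lev.1 hB
    choose k hk1 hk2 hk3 using fun i => TRL_key hb (B.1 i) (B.2 i) (hB1.2 i) (t i)
    have hkK : k ∈ K := by
      rw [hK, Fintype.mem_piFinset]
      intro i
      have h1 := abs_le.1 (hk1 i)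
      have h2 : ((b ^ B.1 i : ℕ) : ℤ) ≤ ((b ^ l : ℕ) : ℤ) := by
        have hil : B.1 i ≤ l := by
          rw [← hB1.1]
          exact Finset.single_le_sum (fun _ _ => Nat.zero_le _) (mem_univ i)
        exact_mod_cast Nat.pow_le_pow_right (by omega) hil
      rw [mem_Icc]
      omega
    have hin : inB b (π k B) t := by
      intro i
      simp only [hπ]
      exact hk2 i
    have hEV : EV b B t ≤ w k := by
      unfold EV
      refine Finset.prod_le_prod (fun i _ => ?_) fun i _ => hk3 i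
      unfold ev
      positivity
    have hterm : w k * (if inB b (π k B) t then 1 else 0) = w k := by
      rw [if_pos hin, mul_one]
    calc EV b B t ≤ w k := hEV
      _ = w k * (if inB b (π k B) t then 1 else 0) := hterm.symm
      _ ≤ _ := Finset.single_le_sum (f := fun k => w k * (if inB b (π k B) t then 1 else 0))
          (fun k _ => mul_nonneg (hw0 k) (by split_ifs <;> norm_num)) hkK

end Pool.Agent.Helper37.SU
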